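import Mathlib

set_option autoImplicit false
set_option linter.all false

open TensorProduct

namespace Pool.Agent.R368.Pac

/-- `A` is a geometrically integral `F`-algebra. -/
def GI (F A : Type) [Field F] [CommRing A] [Algebra F A] : Prop :=
  ∀ (Ω : Type) [Field Ω] [Algebra F Ω], IsDomain (Ω ⊗[F] A)

/-- `2`, `3`, `6` are not squares. -/
def NS (F : Type) [Field F] : Prop := ∀ z : F, z ^ 2 ≠ 2 ∧ z ^ 2 ≠ 3 ∧ z ^ 2 ≠ 6

theorem gi_base {F A : Type} [Field F] [CommRing A] [Algebra F A] (h : GI F A)
    (L : Type) [Field L] [Algebra F L] : GI L (L ⊗[F] A) := by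
  intro Ω _ _
  letI : Algebra F Ω := ((algebraMap L Ω).comp (algebraMap F L)).toAlgebra
  haveI : IsScalarTower F L Ω := IsScalarTower.of_algebraMap_eq' rfl
  haveI := h Ω
  exact (Algebra.TensorProduct.cancelBaseChange F L L Ω A).toMulEquiv.isDomain _

theorem gi_congr {F A B : Type} [Field F] [CommRing A] [Algebra F A] [CommRing B] [Algebra F B]
    (e : A ≃ₐ[F] B) (h : GI F A) : GI F B := by
  intro Ω _ _
  haveI := h Ω
  exact (Algebra.TensorProduct.congr (AlgEquiv.refl : Ω ≃ₐ[F] Ω) e.symm).toMulEquiv.isDomain _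

/-- descent: if `K ⊗ A` is geometrically integral over `K` then `A` is over `F` -/
theorem gi_descend {F A : Type} [Field F] [CommRing A] [Algebra F A]
    (K : Type) [Field K] [Algebra F K] (h : GI K (K ⊗[F] A)) : GI F A := by
  intro Ω _ _
  -- a common extension of `Ω` and `K`
  haveI : Nontrivial (Ω ⊗[F] K) := inferInstance
  obtain ⟨M, hM⟩ := Ideal.exists_maximal (Ω ⊗[F] K)
  let E := (Ω ⊗[F] K) ⧸ M
  letI : Field E := Ideal.Quotient.field M
  letI : Algebra Ω E := inferInstance
  let iK : K →+* E := (Ideal.Quotient.mk M).comp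
    (Algebra.TensorProduct.includeRight : K →ₐ[F] Ω ⊗[F] K).toRingHom
  letI : Algebra K E := iK.toAlgebra
  haveI : IsScalarTower F K E := IsScalarTower.of_algebraMap_eq' (by
    ext x
    change Ideal.Quotient.mk M (algebraMap F (Ω ⊗[F] K) x) = Ideal.Quotient.mk M
      ((Algebra.TensorProduct.includeRight : K →ₐ[F] Ω ⊗[F] K) (algebraMap F K x))
    rw [AlgHom.commutes])
  haveI := h E
  have hE : IsDomain (E ⊗[F] A) :=
    (Algebra.TensorProduct.cancelBaseChange F K K E A).symm.toMulEquiv.isDomain _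
  have hinj : Function.Injective (Algebra.TensorProduct.map
      (IsScalarTower.toAlgHom F Ω E) (AlgHom.id F A)) := by
    have h1 : Function.Injective (IsScalarTower.toAlgHom F Ω E).toLinearMap :=
      (algebraMap Ω E).injective
    exact Module.Flat.rTensor_preserves_injective_linearMap (M := A) _ h1
  exact hinj.isDomain (Algebra.TensorProduct.map
      (IsScalarTower.toAlgHom F Ω E) (AlgHom.id F A)).toRingHom

theorem gi_domain {L B : Type} [Field L] [CommRing B] [Algebra L B] (h : GI L B) : IsDomain B := by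
  haveI := h L
  exact (Algebra.TensorProduct.lid L B).symm.toMulEquiv.isDomain _

theorem exists_sqrt {L : Type} [Field L] (d : L) (hd : ∀ z : L, z ^ 2 ≠ d) :
    ∃ (E : Type) (_ : Field E) (_ : Algebra L E) (s : E), s ^ 2 = algebraMap L E d := by
  have hirr : Irreducible (Polynomial.X ^ 2 - Polynomial.C d : Polynomial L) :=
    X_pow_sub_C_irreducible_of_prime (K := L) Nat.prime_two (a := d) hd
  haveI : Fact (Irreducible (Polynomial.X ^ 2 - Polynomial.C d : Polynomial L)) := ⟨hirr⟩
  refine ⟨AdjoinRoot (Polynomial.X ^ 2 - Polynomial.C d : Polynomial L), inferInstance,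
    inferInstance, AdjoinRoot.root _, ?_⟩
  have h1 := AdjoinRoot.eval₂_root (Polynomial.X ^ 2 - Polynomial.C d : Polynomial L)
  simp only [Polynomial.eval₂_sub, Polynomial.eval₂_pow, Polynomial.eval₂_X,
    Polynomial.eval₂_C] at h1
  exact sub_eq_zero.1 h1

/-- a non-square stays a non-square in the fraction field of a geometrically integral algebra -/
theorem not_sq {L B : Type} [Field L] [CommRing B] [Algebra L B] (h : GI L B) (d : L)
    (hd : ∀ z : L, z ^ 2 ≠ d) (a b : B) (hb : b ≠ 0) : a ^ 2 ≠ algebraMap L B d * b ^ 2 := by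
  intro hab
  obtain ⟨E, _, _, s, hs⟩ := exists_sqrt d hd
  have hsL : ∀ c : L, algebraMap L E c ≠ s := by
    intro c hc
    apply hd c
    apply (algebraMap L E).injective
    rw [map_pow, hc, hs]
  haveI := h E
  have hprod : ((1 : E) ⊗ₜ[L] a - s ⊗ₜ[L] b) * ((1 : E) ⊗ₜ[L] a + s ⊗ₜ[L] b) = 0 := by
    have e1 : ((1 : E) ⊗ₜ[L] a - s ⊗ₜ[L] b) * ((1 : E) ⊗ₜ[L] a + s ⊗ₜ[L] b)
        = (1 : E) ⊗ₜ[L] (a ^ 2) - (s ^ 2) ⊗ₜ[L] (b ^ 2) := by
      have e2 : ((1 : E) ⊗ₜ[L] a) * ((1 : E) ⊗ₜ[L] a) = (1 : E) ⊗ₜ[L] (a ^ 2) := by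
        rw [Algebra.TensorProduct.tmul_mul_tmul, mul_one, pow_two]
      have e3 : (s ⊗ₜ[L] b) * (s ⊗ₜ[L] b) = (s ^ 2) ⊗ₜ[L] (b ^ 2) := by
        rw [Algebra.TensorProduct.tmul_mul_tmul, pow_two, pow_two]
      rw [← e2, ← e3]
      ring
    have e4 : (1 : E) ⊗ₜ[L] (algebraMap L B d * b ^ 2) = (algebraMap L E d) ⊗ₜ[L] (b ^ 2) := by
      rw [← Algebra.smul_def, ← TensorProduct.smul_tmul, Algebra.algebraMap_eq_smul_one]
    rw [e1, hs, hab, e4, sub_self]
  -- a functional killing `1` but not `s`
  have hmem : s ∉ Submodule.span L {(1 : E)} := by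
    intro hmem
    obtain ⟨c, hc⟩ := Submodule.mem_span_singleton.1 hmem
    exact hsL c (by rw [Algebra.algebraMap_eq_smul_one]; exact hc)
  obtain ⟨f, hf1, hf2⟩ := Submodule.exists_le_ker_of_notMem hmem
  have hf0 : f 1 = 0 := hf2 (Submodule.mem_span_singleton_self 1)
  let Φ : E ⊗[L] B →ₗ[L] B := (TensorProduct.lid L B).toLinearMap ∘ₗ (LinearMap.rTensor B f)
  have hΦ : ∀ (x : E) (y : B), Φ (x ⊗ₜ y) = f x • y := fun x y => by simp [Φ]
  rcases mul_eq_zero.1 hprod with h0 | h0
  · have h1 := congrArg Φ h0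
    rw [map_sub, hΦ, hΦ, map_zero, hf0, zero_smul, zero_sub, neg_eq_zero, Algebra.smul_def] at h1
    haveI : IsDomain B := gi_domain h
    rcases mul_eq_zero.1 h1 with h2 | h2
    · exact hf1 ((map_eq_zero _).1 h2)
    · exact hb h2
  · have h1 := congrArg Φ h0
    rw [map_add, hΦ, hΦ, map_zero, hf0, zero_smul, zero_add, Algebra.smul_def] at h1
    haveI : IsDomain B := gi_domain h
    rcases mul_eq_zero.1 h1 with h2 | h2
    · exact hf1 ((map_eq_zero _).1 h2)
    · exact hb h2

/-- one step: a point of `B` over an extension with the same property -/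
theorem step_one {L B : Type} [Field L] [CommRing B] [Algebra L B] (h : GI L B) (hL : NS L) :
    ∃ (E : Type) (_ : Field E) (_ : Algebra L E), NS E ∧ Nonempty (B →ₐ[L] E) := by
  haveI := gi_domain h
  refine ⟨FractionRing B, inferInstance, inferInstance, ?_, ⟨IsScalarTower.toAlgHom L B _⟩⟩
  have key : ∀ (n : ℕ), (∀ z : L, z ^ 2 ≠ (n : L)) → ∀ z : FractionRing B,
      z ^ 2 ≠ (n : FractionRing B) := by
    intro n hn z hz
    obtain ⟨a, b, hb, rfl⟩ := IsFractionRing.div_surjective (A := B) z
    have hb0 : b ≠ 0 := nonZeroDivisors.ne_zero hb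
    have hb1 : algebraMap B (FractionRing B) b ≠ 0 := by
      rw [Ne, IsFractionRing.to_map_eq_zero_iff]
      exact hb0
    apply not_sq h (n : L) hn a b hb0
    apply IsFractionRing.injective B (FractionRing B)
    rw [div_pow, div_eq_iff (pow_ne_zero 2 hb1)] at hz
    rw [map_pow, map_mul, map_pow, hz, map_natCast, map_natCast]
  intro z
  have k2 := key 2 (fun z => by have := (hL z).1; exact_mod_cast this) z
  have k3 := key 3 (fun z => by have := (hL z).2.1; exact_mod_cast this) z
  have k6 := key 6 (fun z => by have := (hL z).2.2; exact_mod_cast this) z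
  exact ⟨by exact_mod_cast k2, by exact_mod_cast k3, by exact_mod_cast k6⟩

/-- finitely many algebras -/
theorem step_fin {F : Type} [Field F] (hF : NS F) {ι : Type} (A : ι → Type)
    [∀ i, CommRing (A i)] [∀ i, Algebra F (A i)] (hA : ∀ i, GI F (A i)) (s : Finset ι) :
    ∃ (E : Type) (_ : Field E) (_ : Algebra F E), NS E ∧ ∀ i ∈ s, Nonempty (A i →ₐ[F] E) := by
  classical
  induction s using Finset.induction_on with
  | empty => exact ⟨F, inferInstance, inferInstance, hF, by simp⟩
  | insert i s hi ih =>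
    obtain ⟨E, iE, iA, hE, hs⟩ := ih
    obtain ⟨E', iE', iA', hE', ⟨φ⟩⟩ := step_one (gi_base (hA i) E) hE
    letI : Algebra F E' := ((algebraMap E E').comp (algebraMap F E)).toAlgebra
    haveI : IsScalarTower F E E' := IsScalarTower.of_algebraMap_eq' rfl
    refine ⟨E', iE', inferInstance, hE', fun j hj => ?_⟩
    rcases Finset.mem_insert.1 hj with rfl | hj
    · exact ⟨(φ.restrictScalars F).comp Algebra.TensorProduct.includeRight⟩
    · obtain ⟨ψ⟩ := hs j hj
      exact ⟨(IsScalarTower.toAlgHom F E E').comp ψ⟩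

/-- any family of algebras (ultraproduct argument) -/
theorem step_all {F : Type} [Field F] (hF : NS F) {ι : Type} (A : ι → Type)
    [∀ i, CommRing (A i)] [∀ i, Algebra F (A i)] (hA : ∀ i, GI F (A i)) :
    ∃ (E : Type) (_ : Field E) (_ : Algebra F E), NS E ∧ ∀ i, Nonempty (A i →ₐ[F] E) := by
  classical
  choose E iE iA hE hφ using step_fin hF A hA
  let φ := fun s i (hi : i ∈ s) => (hφ s i hi).some
  let R := ∀ s : Finset ι, E s
  let J : Ideal R :=
    { carrier := {x | ∃ s₀ : Finset ι, ∀ s, s₀ ⊆ s → x s = 0}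
      add_mem' := by
        rintro a b ⟨s, hs⟩ ⟨t, ht⟩
        refine ⟨s ∪ t, fun u hu => ?_⟩
        rw [Pi.add_apply, hs u (Finset.union_subset_left hu), ht u (Finset.union_subset_right hu),
          add_zero]
      zero_mem' := ⟨∅, fun s _ => rfl⟩
      smul_mem' := by
        rintro c a ⟨s, hs⟩
        refine ⟨s, fun u hu => ?_⟩
        rw [smul_eq_mul, Pi.mul_apply, hs u hu, mul_zero] }
  have hJ : J ≠ ⊤ := by
    intro h
    have : (1 : R) ∈ J := by rw [h]; trivial
    obtain ⟨s, hs⟩ := this
    have := hs s (Finset.Subset.refl s)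
    exact one_ne_zero this
  obtain ⟨M, hM, hJM⟩ := Ideal.exists_le_maximal J hJ
  letI : Field (R ⧸ M) := Ideal.Quotient.field M
  refine ⟨R ⧸ M, inferInstance, inferInstance, ?_, ?_⟩
  · have key : ∀ (n : ℕ), (∀ s, ∀ z : E s, z ^ 2 ≠ (n : E s)) → ∀ z : R ⧸ M,
        z ^ 2 ≠ (n : R ⧸ M) := by
      intro n hn z hz
      obtain ⟨x, rfl⟩ := Ideal.Quotient.mk_surjective z
      rw [← map_pow, ← map_natCast (Ideal.Quotient.mk M), Ideal.Quotient.eq] at hz
      apply hM.ne_top
      apply Ideal.eq_top_of_isUnit_mem _ hz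
      rw [Pi.isUnit_iff]
      intro s
      rw [isUnit_iff_ne_zero]
      intro h0
      apply hn s (x s)
      rw [← sub_eq_zero]
      exact h0
    intro z
    have k2 := key 2 (fun s z => by have := (hE s z).1; exact_mod_cast this) z
    have k3 := key 3 (fun s z => by have := (hE s z).2.1; exact_mod_cast this) z
    have k6 := key 6 (fun s z => by have := (hE s z).2.2; exact_mod_cast this) z
    exact ⟨by exact_mod_cast k2, by exact_mod_cast k3, by exact_mod_cast k6⟩
  · intro i
    let g : A i → R := fun a s => if h : i ∈ s then φ s i h a else 0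
    have hg : ∀ a s (h : i ∈ s), g a s = φ s i h a := fun a s h => dif_pos h
    have hmk : ∀ x y : R, (∀ s, i ∈ s → x s = y s) →
        Ideal.Quotient.mk M x = Ideal.Quotient.mk M y := by
      intro x y h
      rw [Ideal.Quotient.eq]
      apply hJM
      refine ⟨{i}, fun s hs => ?_⟩
      rw [Pi.sub_apply, sub_eq_zero]
      exact h s (hs (Finset.mem_singleton_self i))
    refine ⟨{ toFun := fun a => Ideal.Quotient.mk M (g a)
              map_one' := ?_, map_mul' := ?_, map_zero' := ?_, map_add' := ?_, commutes' := ?_ }⟩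
    · rw [← map_one (Ideal.Quotient.mk M)]
      exact hmk _ _ fun s h => by rw [hg _ s h, map_one, Pi.one_apply]
    · intro a b
      rw [← map_mul]
      exact hmk _ _ fun s h => by
        rw [hg _ s h, map_mul, Pi.mul_apply, hg _ s h, hg _ s h]
    · rw [← map_zero (Ideal.Quotient.mk M)]
      exact hmk _ _ fun s h => by rw [hg _ s h, map_zero, Pi.zero_apply]
    · intro a b
      rw [← map_add]
      exact hmk _ _ fun s h => by
        rw [hg _ s h, map_add, Pi.add_apply, hg _ s h, hg _ s h]
    · intro c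
      change _ = Ideal.Quotient.mk M (algebraMap F R c)
      exact hmk _ _ fun s h => by
        rw [hg _ s h, AlgHom.commutes, Pi.algebraMap_apply]

/-- one step for all geometrically integral algebras of finite type -/
theorem step {F : Type} [Field F] (hF : NS F) :
    ∃ (E : Type) (_ : Field E) (f : F →+* E), NS E ∧
      ∀ (A : Type) [CommRing A] [Algebra F A], Algebra.FiniteType F A → GI F A →
        ∃ g : A →+* E, ∀ c : F, g (algebraMap F A c) = f c := by
  let ι := Σ m : ℕ, {I : Ideal (MvPolynomial (Fin m) F) // GI F (MvPolynomial (Fin m) F ⧸ I)}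
  obtain ⟨E, iE, iA, hE, hφ⟩ := step_all hF
    (fun i : ι => MvPolynomial (Fin i.1) F ⧸ i.2.1) (fun i => i.2.2)
  refine ⟨E, iE, algebraMap F E, hE, ?_⟩
  intro A _ _ hft hA
  obtain ⟨m, f, hf⟩ := Algebra.FiniteType.iff_quotient_mvPolynomial''.1 hft
  let e : (MvPolynomial (Fin m) F ⧸ RingHom.ker f.toRingHom) ≃ₐ[F] A :=
    Ideal.quotientKerAlgEquivOfSurjective hf
  obtain ⟨φ⟩ := hφ ⟨m, RingHom.ker f.toRingHom, gi_congr e.symm hA⟩
  exact ⟨(φ.comp e.symm.toAlgHom).toRingHom, fun c => (φ.comp e.symm.toAlgHom).commutes c⟩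

/-- the union of a sequence of fields -/
theorem limit (G : ℕ → Type) [∀ n, Field (G n)] (tr : ∀ n, G n →+* G (n + 1)) :
    ∃ (K : Type) (_ : Field K) (j : ∀ n, G n →+* K),
      (∀ n x, j (n + 1) (tr n x) = j n x) ∧ ∀ z : K, ∃ n x, j n x = z := by
  let f : ∀ i j, i ≤ j → G i →+* G j := fun i j h =>
    Nat.leRecOn (C := fun k => G i →+* G k) h (fun {k} φ => (tr k).comp φ) (RingHom.id (G i))
  have hf0 : ∀ i, f i i le_rfl = RingHom.id _ := fun i => Nat.leRecOn_self _
  have hf1 : ∀ i j (h : i ≤ j), f i (j + 1) (h.trans (Nat.le_succ j)) = (tr j).comp (f i j h) :=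
    fun i j h => Nat.leRecOn_succ h _
  haveI : DirectedSystem G (fun i j h => f i j h) := by
    constructor
    · intro i x
      rw [hf0]; rfl
    · intro k j i hij hjk x
      induction k, hjk using Nat.le_induction with
      | base => rw [hf0]; rfl
      | succ k hk ih =>
        rw [hf1 j k hk, hf1 i k (hij.trans hk)]
        change tr k _ = tr k _
        rw [ih]
  letI : Field (Ring.DirectLimit G (fun i j h => f i j h)) := Field.DirectLimit.field G f
  refine ⟨Ring.DirectLimit G (fun i j h => f i j h), inferInstance,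
    fun n => Ring.DirectLimit.of G (fun i j h => f i j h) n, ?_, ?_⟩
  · intro n x
    have h1 := hf1 n n le_rfl
    rw [hf0] at h1
    have h2 : f n (n + 1) (Nat.le_succ n) x = tr n x := by
      rw [h1]; rfl
    rw [← h2]
    exact Ring.DirectLimit.of_f (hij := Nat.le_succ n) x
  · intro z
    exact Ring.DirectLimit.exists_of z

theorem ns_rat : NS ℚ := by
  have key : ∀ n : ℕ, ¬ IsSquare n → ∀ z : ℚ, z ^ 2 ≠ (n : ℚ) := by
    intro n hn z hz
    apply hn
    have : IsSquare (n : ℚ) := ⟨z, by rw [← hz, pow_two]⟩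
    exact Rat.isSquare_natCast_iff.1 this
  have h2 : ¬ IsSquare (2 : ℕ) := by
    rintro ⟨r, hr⟩
    have : r < 2 := by nlinarith
    interval_cases r <;> omega
  have h3 : ¬ IsSquare (3 : ℕ) := by
    rintro ⟨r, hr⟩
    have : r < 2 := by nlinarith
    interval_cases r <;> omega
  have h6 : ¬ IsSquare (6 : ℕ) := by
    rintro ⟨r, hr⟩
    have : r < 3 := by nlinarith
    interval_cases r <;> omega
  intro z
  refine ⟨?_, ?_, ?_⟩
  · have := key 2 h2 z
    exact_mod_cast this
  · have := key 3 h3 z
    exact_mod_cast this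
  · have := key 6 h6 z
    exact_mod_cast this

/-- a field in which `2`, `3`, `6` are not squares -/
structure Stage where
  F : Type
  [field : Field F]
  ns : NS F

attribute [instance] Stage.field

theorem stage_step (x : Stage) : ∃ (y : Stage) (f : x.F →+* y.F),
    ∀ (A : Type) [CommRing A] [Algebra x.F A], Algebra.FiniteType x.F A → GI x.F A →
      ∃ g : A →+* y.F, ∀ c : x.F, g (algebraMap x.F A c) = f c := by
  obtain ⟨E, iE, f, hE, h⟩ := step x.ns
  exact ⟨⟨E, hE⟩, f, h⟩

/-- the next field -/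
noncomputable def nxt (x : Stage) : Stage := (stage_step x).choose

/-- the map to the next field -/
noncomputable def nxtMap (x : Stage) : x.F →+* (nxt x).F := (stage_step x).choose_spec.choose

theorem nxt_spec (x : Stage) (A : Type) [CommRing A] [Algebra x.F A]
    (h1 : Algebra.FiniteType x.F A) (h2 : GI x.F A) :
    ∃ g : A →+* (nxt x).F, ∀ c : x.F, g (algebraMap x.F A c) = nxtMap x c :=
  (stage_step x).choose_spec.choose_spec A h1 h2

/-- the sequence of fields -/
noncomputable def sq : ℕ → Stage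
  | 0 => ⟨ℚ, ns_rat⟩
  | n + 1 => nxt (sq n)

/-- There is a field in which `2`, `3`, `6` are not squares and over which all geometrically
integral algebras of finite type have a point. -/
theorem exists_pac : ∃ (K : Type) (_ : Field K), CharZero K ∧ NS K ∧
    ∀ (A : Type) [CommRing A] [Algebra K A], Algebra.FiniteType K A → GI K A →
      Nonempty (A →ₐ[K] K) := by
  classical
  obtain ⟨K, iK, j, hj, hsurj⟩ := limit (fun n => (sq n).F) (fun n => nxtMap (sq n))
  refine ⟨K, iK, ?_, ?_, ?_⟩
  · let j0 : ℚ →+* K := j 0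
    exact charZero_of_injective_ringHom j0.injective
  · intro z
    obtain ⟨n, x, rfl⟩ := hsurj z
    have hx := (sq n).ns x
    refine ⟨fun h => hx.1 ?_, fun h => hx.2.1 ?_, fun h => hx.2.2 ?_⟩
    · apply (j n).injective
      rw [map_pow, h, map_ofNat]
    · apply (j n).injective
      rw [map_pow, h, map_ofNat]
    · apply (j n).injective
      rw [map_pow, h, map_ofNat]
  · intro A _ _ hft hA
    haveI : Algebra.FiniteType K A := hft
    haveI : Algebra.FinitePresentation K A := Algebra.FinitePresentation.of_finiteType.1 hft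
    let P := Algebra.Presentation.ofFinitePresentation K A
    -- the images increase
    have hmono : ∀ m n, m ≤ n → Set.range (j m) ⊆ Set.range (j n) := by
      intro m n h
      induction n, h using Nat.le_induction with
      | base => exact Set.Subset.refl _
      | succ n hn ih =>
        refine ih.trans ?_
        rintro _ ⟨x, rfl⟩
        exact ⟨nxtMap (sq n) x, hj n x⟩
    -- finite sets are defined over some stage
    have hfin : ∀ s : Finset K, ∃ n, (s : Set K) ⊆ Set.range (j n) := by
      intro s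
      induction s using Finset.induction_on with
      | empty => exact ⟨0, by simp⟩
      | insert a s ha ih =>
        obtain ⟨n, hn⟩ := ih
        obtain ⟨m, x, hx⟩ := hsurj a
        refine ⟨max m n, ?_⟩
        rw [Finset.coe_insert, Set.insert_subset_iff]
        exact ⟨hmono m _ (le_max_left _ _) ⟨x, hx⟩, hn.trans (hmono n _ (le_max_right _ _))⟩
    have hPf : P.coeffs.Finite := P.finite_coeffs
    obtain ⟨n, hn⟩ := hfin hPf.toFinset
    rw [Set.Finite.coe_toFinset] at hn
    letI : Algebra (sq n).F K := (j n).toAlgebra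
    letI : Algebra (sq n).F A := ((algebraMap K A).comp (j n)).toAlgebra
    haveI : IsScalarTower (sq n).F K A := IsScalarTower.of_algebraMap_eq' rfl
    haveI : P.HasCoeffs (sq n).F := ⟨hn⟩
    let e := P.tensorModelOfHasCoeffsEquiv (sq n).F
    have h1 : GI (sq n).F (P.ModelOfHasCoeffs (sq n).F) :=
      gi_descend K (gi_congr e.symm hA)
    obtain ⟨g, hg⟩ := nxt_spec (sq n) (P.ModelOfHasCoeffs (sq n).F) inferInstance h1
    let g' : P.ModelOfHasCoeffs (sq n).F →ₐ[(sq n).F] K :=
      { (j (n + 1)).comp g with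
        commutes' := fun c => by
          change j (n + 1) (g (algebraMap _ _ c)) = j n c
          rw [hg]
          exact hj n c }
    exact ⟨(Algebra.TensorProduct.lift (AlgHom.id K K) g' (fun _ _ => Commute.all _ _)).comp
      e.symm.toAlgHom⟩

end Pool.Agent.R368.Pac
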