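import Mathlib
import Pool.Agent.R368.Pac

set_option autoImplicit false
set_option linter.all false

open TensorProduct CategoryTheory Limits AlgebraicGeometry

namespace Pool.Agent.R368.Pac

/-- over a field as in `exists_pac` all geometrically integral schemes locally of finite type have a
point -/
theorem scheme_point {K : Type} [Field K]
    (hK : ∀ (A : Type) [CommRing A] [Algebra K A], Algebra.FiniteType K A → GI K A →
      Nonempty (A →ₐ[K] K))
    (X : Scheme.{0}) (s : X ⟶ Spec (.of K)) (h1 : GeometricallyIntegral s)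
    (h2 : LocallyOfFiniteType s) : ∃ x : Spec (.of K) ⟶ X, x ≫ s = 𝟙 _ := by
  have hsub : Subsingleton (Spec (CommRingCat.of K)) := inferInstance
  have hXint : IsIntegral X := GeometricallyIntegral.isIntegral_of_subsingleton s
  obtain ⟨x0⟩ : Nonempty X := inferInstance
  obtain ⟨A, ι, hι, hne⟩ : ∃ (A : CommRingCat.{0}) (ι : Spec A ⟶ X), IsOpenImmersion ι ∧
      Nonempty (Spec A) := by
    obtain ⟨W, hW, hxW, -⟩ := exists_isAffineOpen_mem_and_subset (x := x0)
      (U := (⊤ : X.Opens)) trivial
    refine ⟨Γ(X, W), hW.fromSpec, inferInstance, ?_⟩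
    have : x0 ∈ Set.range hW.fromSpec := by
      rw [hW.range_fromSpec]; exact hxW
    obtain ⟨y, -⟩ := this
    exact ⟨y⟩
  obtain ⟨φ, hφ⟩ := Spec.map_surjective (ι ≫ s)
  letI : Algebra K A := φ.hom.toAlgebra
  have hft : Algebra.FiniteType K A := by
    have h3 : LocallyOfFiniteType (Spec.map φ) := by rw [hφ]; infer_instance
    exact (HasRingHomProperty.Spec_iff (P := @LocallyOfFiniteType)).1 h3
  have hGI : GI K A := by
    intro Ω _ _
    let y : Spec (.of Ω) ⟶ Spec (.of K) := Spec.map (CommRingCat.ofHom (algebraMap K Ω))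
    have h4 : IsIntegral (pullback s y) := pullback_of_geometrically h1.1 Ω y
    let m : pullback (ι ≫ s) y ⟶ pullback s y := pullback.map _ _ _ _ ι (𝟙 _) (𝟙 _)
      (by simp) (by simp)
    have hm : IsOpenImmersion m := inferInstance
    have hA0 : Nontrivial A := by
      obtain ⟨p⟩ := hne
      by_contra hn
      rw [not_nontrivial_iff_subsingleton] at hn
      exact p.2.ne_top (Subsingleton.elim _ _)
    let e : pullback (Spec.map (CommRingCat.ofHom (algebraMap K A))) y ≅
        Spec (.of (A ⊗[K] Ω)) := pullbackSpecIso K A Ω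
    have hφ' : Spec.map (CommRingCat.ofHom (algebraMap K A)) = ι ≫ s := hφ
    rw [hφ'] at e
    have hnt : Nontrivial (A ⊗[K] Ω) := inferInstance
    have hne2 : Nonempty (Spec (.of (A ⊗[K] Ω))) := inferInstance
    have hne3 : Nonempty (pullback (ι ≫ s) y : Scheme.{0}) := hne2.map (fun z => e.inv z)
    have h5 : IsIntegral (pullback (ι ≫ s) y) := isIntegral_of_isOpenImmersion m
    have h6 : IsIntegral (Spec (.of (A ⊗[K] Ω))) := IsIntegral.of_isIso e.hom
    have h7 : IsDomain (A ⊗[K] Ω) := (affine_isIntegral_iff _).1 h6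
    exact (Algebra.TensorProduct.comm K Ω A).toMulEquiv.isDomain _
  obtain ⟨g⟩ := hK A hft hGI
  refine ⟨Spec.map (CommRingCat.ofHom g.toRingHom) ≫ ι, ?_⟩
  rw [Category.assoc, ← hφ, ← Spec.map_comp]
  have : φ ≫ CommRingCat.ofHom g.toRingHom = 𝟙 _ := by
    ext c
    exact g.commutes c
  rw [this, Spec.map_id]

/-- if `2`, `3`, `6` are not squares then the absolute Galois group is not procyclic -/
theorem not_procyclic {K : Type} [Field K] [CharZero K] (hK : NS K)
    (g : Gal(SeparableClosure K/K))
    (hg : closure ((Subgroup.zpowers g : Subgroup Gal(SeparableClosure K/K)) :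
      Set Gal(SeparableClosure K/K)) = Set.univ) : False := by
  have fix : ∀ x : SeparableClosure K, g x = x → ∃ c : K, algebraMap K _ c = x := by
    intro x hx
    have h1 : IsClosed (MulAction.stabilizer Gal(SeparableClosure K/K) x :
        Set Gal(SeparableClosure K/K)) :=
      Subgroup.isClosed_of_isOpen _ (stabilizer_isOpen_of_isIntegral x)
    have h2 : (Subgroup.zpowers g : Set Gal(SeparableClosure K/K)) ⊆
        (MulAction.stabilizer Gal(SeparableClosure K/K) x : Set _) := by
      rw [SetLike.coe_subset_coe, Subgroup.zpowers_le]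
      exact hx
    have h3 : ∀ σ : Gal(SeparableClosure K/K), σ x = x := by
      intro σ
      have : σ ∈ closure ((Subgroup.zpowers g : Subgroup _) : Set Gal(SeparableClosure K/K)) := by
        rw [hg]; trivial
      exact (closure_minimal h2 h1) this
    exact (InfiniteGalois.mem_range_algebraMap_iff_fixed x).2 h3
  have h20 : NeZero (2 : SeparableClosure K) := ⟨by
    rw [← map_ofNat (algebraMap K (SeparableClosure K)) 2]
    simp⟩
  obtain ⟨a, ha⟩ := IsSepClosed.exists_eq_mul_self (2 : SeparableClosure K)
  obtain ⟨b, hb⟩ := IsSepClosed.exists_eq_mul_self (3 : SeparableClosure K)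
  have sgn : ∀ (x : SeparableClosure K) (n : K), algebraMap K _ n = x * x → (∀ z : K, z ^ 2 ≠ n) →
      g x = -x := by
    intro x n hx hn
    have h1 : g x * g x = x * x := by
      rw [← map_mul, ← hx, AlgEquiv.commutes]
    rcases mul_self_eq_mul_self_iff.1 h1 with h2 | h2
    · obtain ⟨c, hc⟩ := fix x h2
      exfalso
      apply hn c
      apply (algebraMap K (SeparableClosure K)).injective
      rw [map_pow, hc, hx, pow_two]
    · exact h2
  have ga : g a = -a := sgn a 2 (by rw [map_ofNat]; exact ha) (fun z => (hK z).1)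
  have gb : g b = -b := sgn b 3 (by rw [map_ofNat]; exact hb) (fun z => (hK z).2.1)
  have gab : g (a * b) = a * b := by rw [map_mul, ga, gb]; ring
  obtain ⟨c, hc⟩ := fix _ gab
  apply (hK c).2.2
  apply (algebraMap K (SeparableClosure K)).injective
  rw [map_pow, hc, map_ofNat]
  have : (6 : SeparableClosure K) = 2 * 3 := by norm_num
  rw [this, ha, hb]
  ring

end Pool.Agent.R368.Pac
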